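import Pool.Agent.W957.CH.Stm

namespace Pool.Agent.W764.CH

open Finset Pool.Agent.W957.CH

theorem idx_eq {V : Type} {l : List V} (hn : l.Nodup) {i j : ℕ} {x : V}
    (hi : l[i]? = some x) (hj : l[j]? = some x) : i = j := by
  have h1 : i < l.length := by
    by_contra h
    rw [List.getElem?_eq_none (by omega)] at hi
    simp at hi
  exact (List.getElem?_inj h1 hn).1 (hi.trans hj.symm)

theorem nx_idx {V : Type} {l : List V} (hn : l.Nodup) {i j : ℕ} {x y : V}
    (hi : l[i]? = some x) (hj : l[j]? = some y) (h : Nx l x y) :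
    j = i + 1 ∨ (i + 1 = l.length ∧ j = 0) := by
  rcases h with ⟨l1, l2, h⟩ | ⟨h1, h2⟩
  · left
    have e1 : l[l1.length]? = some x := by
      rw [h]; simp
    have e2 : l[l1.length + 1]? = some y := by
      rw [h, List.getElem?_append_right (by omega)]
      simp
    have := idx_eq hn hi e1
    have := idx_eq hn hj e2
    omega
  · right
    rw [List.getLast?_eq_getElem?] at h1
    rw [List.head?_eq_getElem?] at h2
    have a1 := idx_eq hn hi h1
    have a2 := idx_eq hn hj h2
    have : 0 < l.length := by
      by_contra h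
      rw [List.getElem?_eq_none (by omega)] at h2
      simp at h2
    omega

theorem ca_idx {V : Type} {l : List V} (hn : l.Nodup) {i j : ℕ} {x y : V}
    (hi : l[i]? = some x) (hj : l[j]? = some y) (h : CA l x y) :
    j = i + 1 ∨ (i + 1 = l.length ∧ j = 0) ∨ i = j + 1 ∨ (j + 1 = l.length ∧ i = 0) := by
  rcases h with h | h
  · rcases nx_idx hn hi hj h with h | h
    · exact Or.inl h
    · exact Or.inr (Or.inl h)
  · rcases nx_idx hn hj hi h with h | h
    · exact Or.inr (Or.inr (Or.inl h))
    · exact Or.inr (Or.inr (Or.inr h))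

theorem sg_len {V : Type} (c : ℕ → V) (a b : ℕ) : (sg c a b).length = b + 1 - a := by
  simp [sg]

theorem sg_get {V : Type} (c : ℕ → V) (a b i : ℕ) (h1 : a ≤ i) (h2 : i ≤ b) :
    (sg c a b)[i - a]? = some (c i) := by
  unfold sg
  rw [List.getElem?_map, List.getElem?_range' (by omega)]
  simp
  congr 1
  omega

theorem split_two {V : Type} (R : List V) (k : ℕ) (x y : V) (h1 : R[k]? = some x)
    (h2 : R[k+1]? = some y) : ∃ l1 l2, R = l1 ++ x :: y :: l2 := by
  have hk : k + 1 < R.length := by
    by_contra h
    rw [List.getElem?_eq_none (by omega)] at h2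
    simp at h2
  refine ⟨R.take k, R.drop (k + 2), ?_⟩
  have e1 : R[k] = x := by
    rw [List.getElem?_eq_getElem (by omega)] at h1
    simpa using h1
  have e2 : R[k+1] = y := by
    rw [List.getElem?_eq_getElem (by omega)] at h2
    simpa using h2
  conv_lhs => rw [← List.take_append_drop k R]
  rw [List.drop_eq_getElem_cons (by omega), List.drop_eq_getElem_cons (i := k + 1) (by omega), e1, e2]

theorem t_EAR (h1 : S_GR) (h2 : S_PR1) : S_EAR := by
  intro V _ X n c a b R hok hg hab hbn hfree h2n hear
  have hrer := h2 V X n c a b R hg hab hbn hfree hear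
  have hcard : 4 * (Ioo a b).card ≤ 3 * n := by
    rw [Nat.card_Ioo]; omega
  obtain ⟨-, G2, G3, -⟩ := h1 V X n c _ _ _ hok hg hrer hcard
  set l := sg c 0 a ++ R ++ sg c b (n - 1) with hl
  have hnd : l.Nodup := hrer.cyc.2.1.1
  have h3 : 3 ≤ n := hg.cr.three
  obtain ⟨⟨u, v, hPF, hau, hvb⟩, hRA⟩ := hear
  have hRne : 0 < R.length := by
    have := hPF.2.1
    rcases R with _ | ⟨x, R'⟩
    · simp at this
    · simp
  have hlen : l.length = a + 1 + R.length + (n - b) := by
    rw [hl]; simp only [List.length_append, sg_len]; omega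
  have gA : ∀ i, i ≤ a → l[i]? = some (c i) := by
    intro i hi
    rw [hl, List.append_assoc, List.getElem?_append_left (by rw [sg_len]; omega)]
    exact sg_get c 0 a i (by omega) hi
  have gR : ∀ k x, R[k]? = some x → l[a + 1 + k]? = some x := by
    intro k x hk
    have hkl : k < R.length := by
      by_contra h
      rw [List.getElem?_eq_none (by omega)] at hk
      simp at hk
    rw [hl, List.getElem?_append_left (by simp only [List.length_append, sg_len]; omega),
      List.getElem?_append_right (by rw [sg_len]; omega), sg_len]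
    rw [show a + 1 + k - (a + 1 - 0) = k by omega]
    exact hk
  have gB : ∀ i, b ≤ i → i < n → l[a + 1 + R.length + (i - b)]? = some (c i) := by
    intro i hbi hin
    rw [hl, List.getElem?_append_right (by simp only [List.length_append, sg_len]; omega)]
    simp only [List.length_append, sg_len]
    rw [show a + 1 + R.length + (i - b) - (a + 1 - 0 + R.length) = i - b by omega]
    exact sg_get c b (n - 1) i hbi (by omega)
  have memR : ∀ x ∈ R, x ∈ l := by
    intro x hx; rw [hl]; simp [hx]
  have idxR : ∀ x ∈ R, ∃ k, k < R.length ∧ R[k]? = some x := by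
    intro x hx
    obtain ⟨k, hk, hkx⟩ := List.getElem_of_mem hx
    exact ⟨k, hk, by rw [List.getElem?_eq_getElem hk, hkx]⟩
  have memI : ∀ {i : ℕ} {x : V}, l[i]? = some x → x ∈ l := by
    intro i x h
    exact List.mem_of_getElem? h
  refine ⟨?_, ?_, ?_⟩
  · by_contra hcon
    have hb : b = a + 1 := by omega
    subst hb
    have hc : CA l (c a) (c (a + 1)) :=
      G3 a (a + 1) (by omega) hbn (by simp) (by simp) (Or.inl rfl)
    have := ca_idx hnd (gA a le_rfl) (gB (a + 1) le_rfl hbn) hc
    omega
  · intro r hr i hin hi hadj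
    obtain ⟨k, hkl, hk⟩ := idxR r hr
    rcases hi with hi | hi
    · have hc := G2 r (c i) (memR r hr) (memI (gA i hi)) hr hadj
      have := ca_idx hnd (gR k r hk) (gA i hi) hc
      left
      have hk0 : k = 0 := by omega
      refine ⟨by omega, ?_⟩
      rw [List.head?_eq_getElem?, ← hk0]; exact hk
    · have hc := G2 r (c i) (memR r hr) (memI (gB i hi hin)) hr hadj
      have := ca_idx hnd (gR k r hk) (gB i hi hin) hc
      right
      have hk0 : k = R.length - 1 := by omega
      refine ⟨by omega, ?_⟩
      rw [List.getLast?_eq_getElem?, ← hk0]; exact hk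
  · intro r hr s hs hadj
    obtain ⟨k, hkl, hk⟩ := idxR r hr
    obtain ⟨k', hkl', hk'⟩ := idxR s hs
    have hc := G2 r s (memR r hr) (memR s hs) hr hadj
    have := ca_idx hnd (gR k r hk) (gR k' s hk') hc
    have : k' = k + 1 ∨ k = k' + 1 := by omega
    rcases this with h | h
    · left
      rw [h] at hk'
      exact split_two R k r s hk hk'
    · right
      rw [h] at hk
      exact split_two R k' s r hk' hk

end Pool.Agent.W764.CH
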