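import Pool.Agent.W957.CH.Stm2

namespace Pool.Agent.W764.CH

open Finset Pool.Agent.W957.CH

theorem mod_rot {n o j' j : ℕ} (hj : j < n) (h : j' + o = j ∨ j' + o = j + n) :
    (j' + o) % n = j := by
  rcases h with h | h
  · rw [h, Nat.mod_eq_of_lt hj]
  · rw [h, Nat.add_mod_right, Nat.mod_eq_of_lt hj]

theorem at_rot {V : Type} {X : Cx V} {n : ℕ} {c : ℕ → V} {o j' j : ℕ} {K : Finset V} (hj : j < n)
    (h : j' + o = j ∨ j' + o = j + n) (hK : At X c K j) :
    At X (fun i => c ((i + o) % n)) K j' := by
  obtain ⟨v, hv, ha⟩ := hK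
  refine ⟨v, hv, ?_⟩
  simp only
  rw [mod_rot hj h]
  exact ha

theorem comp_rot {V : Type} [DecidableEq V] {X : Cx V} {n : ℕ} {c c' : ℕ → V} {K : Finset V}
    (h : img n c' = img n c) (hK : Comp X n c K) : Comp X n c' K := by
  unfold Comp at *
  rw [h]
  exact hK

theorem set_rot {V : Type} [DecidableEq V] {X : Cx V} {n : ℕ} {c c' : ℕ → V} {τ σ : ℕ}
    (h : Good X n c') (hK : Set2 X n c τ σ) : Set2 X n c' τ σ :=
  ⟨hK.ok, h, hK.Ln, hK.par, hK.big⟩

theorem t_ZON (h1 : S_ROT) (h2 : S_SHR) : S_ZON := by
  intro V _ X n c τ σ N s p x y K l1 l2 w1 w2 L1 L2 hset hlad hp hpN hns hini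
  have xm : ∀ r s, r ≤ s → s ≤ N → x r ≤ x s := by
    intro r s hrs
    induction s, hrs using Nat.le_induction with
    | base => intro _; exact le_rfl
    | succ s hrs ih =>
      intro hs
      have := ih (by omega)
      have := hlad.xi s (by omega)
      omega
  have ym : ∀ r s, r ≤ s → s ≤ N → y s ≤ y r := by
    intro r s hrs
    induction s, hrs using Nat.le_induction with
    | base => intro _; exact le_rfl
    | succ s hrs ih =>
      intro hs
      have := ih (by omega)
      have := hlad.yd s (by omega)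
      omega
  have hyn := hlad.yn
  have hxy := hlad.xy
  have x0p := xm 0 p (by omega) (by omega)
  have xpN := xm p N (by omega) (by omega)
  have xNp := xm (N - p) N (by omega) (by omega)
  have x0N := xm 0 N (by omega) (by omega)
  have y0p := ym 0 p (by omega) (by omega)
  have ypN := ym p N (by omega) (by omega)
  have yNp := ym (N - p) N (by omega) (by omega)
  have y0N := ym 0 N (by omega) (by omega)
  have hww := hini.ww
  have hwn := hini.wn
  have hb1 := hini.b1
  have hb2 := hini.b2
  have hll := hini.ll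
  have hsw := hini.sw
  have hsx := hlad.sx
  have hsy := hlad.sy
  rcases hini.zone with hz | ⟨hz1, hz2⟩ | hz
  · -- zone below the ladder
    have ho : x 0 < n := by omega
    obtain ⟨hg, himg, hch, hcl⟩ := h1 V X n c (x 0) hset.good ho
    refine h2 V X n (fun i => c ((i + x 0) % n)) τ σ N (fun r => x r - x 0) (fun r => y r - x 0) K
      s p (l1 - x 0) (l2 - x 0) (w1 + n - x 0) (w2 + n - x 0) L1 L2 (set_rot hg hset)
      ⟨?_, ?_, ?_, ?_, ?_, ?_, ?_, ?_, ?_⟩ hp (by omega)
      ⟨?_, ?_, ?_, ?_, ?_, ?_, ?_, ?_, hini.ne, comp_rot himg hini.C1, comp_rot himg hini.C2,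
        ?_, ?_, ?_, ?_⟩ (by omega)
    · intro r hr
      have e1 := hlad.xi r hr
      have e2 := xm 0 r (by omega) (by omega)
      show x r - x 0 + τ < x (r + 1) - x 0
      omega
    · intro r hr
      have e1 := hlad.yd r hr
      have e2 := ym (r + 1) N (by omega) (by omega)
      show y (r + 1) - x 0 + τ < y r - x 0
      omega
    · show x N - x 0 < y N - x 0
      omega
    · show y 0 - x 0 < n
      omega
    · intro i hi1 hi2
      have hi1' : x 0 - x 0 ≤ i := hi1
      have hi2' : i ≤ x N - x 0 := hi2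
      rw [hcl i (by omega), mod_rot (j := i + x 0) (by omega) (Or.inl rfl)]
      exact hlad.cx _ (by omega) (by omega)
    · intro i hi1 hi2
      have hi1' : y N - x 0 ≤ i := hi1
      have hi2' : i ≤ y 0 - x 0 := hi2
      rw [hcl i (by omega), mod_rot (j := i + x 0) (by omega) (Or.inl rfl)]
      exact hlad.cy _ (by omega) (by omega)
    · show 8 * (x N - x 0 - (x 0 - x 0)) ≤ n
      omega
    · show 8 * (y 0 - x 0 - (y N - x 0)) ≤ n
      omega
    · intro r hr
      obtain ⟨k1, k2, k3⟩ := hlad.K r hr
      have e1 := xm 0 r (by omega) hr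
      have e2 := ym r N hr le_rfl
      have e3 := xm r N hr le_rfl
      have e4 := ym 0 r (by omega) hr
      exact ⟨comp_rot himg k1, at_rot (by omega) (by left; omega) k2,
        at_rot (by omega) (by left; omega) k3⟩
    · show (x p - x 0 < l1 - x 0 ∧ l1 - x 0 ≤ x N - x 0) ∨ (y N - x 0 ≤ l1 - x 0 ∧ l1 - x 0 < y p - x 0)
      omega
    · show (x p - x 0 < l2 - x 0 ∧ l2 - x 0 ≤ x N - x 0) ∨ (y N - x 0 ≤ l2 - x 0 ∧ l2 - x 0 < y p - x 0)
      omega
    · omega
    · show y 0 - x 0 < w1 + n - x 0
      omega
    · omega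
    · omega
    · intro i hi1 hi2
      rw [hch i (by omega), mod_rot (j := i + x 0 - n) (by omega) (by right; omega)]
      exact hini.fr _ (by omega) (by omega)
    · omega
    · exact at_rot (by omega) (by left; omega) hini.a1
    · exact at_rot (by omega) (by left; omega) hini.a2
    · exact at_rot (by omega) (by right; omega) hini.at1
    · exact at_rot (by omega) (by right; omega) hini.at2
  · -- zone between the two intervals
    have ho : y N < n := by omega
    obtain ⟨hg, himg, hch, hcl⟩ := h1 V X n c (y N) hset.good ho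
    have hgl : ∀ l, l < n → ∃ l', l' < n ∧ ((l < y N ∧ l' + y N = l + n) ∨ (y N ≤ l ∧ l' + y N = l)) := by
      intro l hl
      by_cases h : l < y N
      · exact ⟨l + n - y N, by omega, by left; omega⟩
      · exact ⟨l - y N, by omega, by right; omega⟩
    obtain ⟨l1', hl1n, hl1'⟩ := hgl l1 (by omega)
    obtain ⟨l2', hl2n, hl2'⟩ := hgl l2 (by omega)
    refine h2 V X n (fun i => c ((i + y N) % n)) τ σ N (fun r => y (N - r) - y N)
      (fun r => x (N - r) + n - y N) (fun r => K (N - r))
      s p l1' l2' (w1 + n - y N) (w2 + n - y N) L1 L2 (set_rot hg hset)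
      ⟨?_, ?_, ?_, ?_, ?_, ?_, ?_, ?_, ?_⟩ hp (by omega)
      ⟨?_, ?_, ?_, ?_, ?_, ?_, ?_, ?_, hini.ne, comp_rot himg hini.C1, comp_rot himg hini.C2,
        ?_, ?_, ?_, ?_⟩ (by omega)
    · intro r hr
      have e1 := hlad.yd (N - (r + 1)) (by omega)
      have e2 := ym (N - r) N (by omega) (by omega)
      rw [show N - (r + 1) + 1 = N - r by omega] at e1
      show y (N - r) - y N + τ < y (N - (r + 1)) - y N
      omega
    · intro r hr
      have e1 := hlad.xi (N - (r + 1)) (by omega)
      rw [show N - (r + 1) + 1 = N - r by omega] at e1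
      show x (N - (r + 1)) + n - y N + τ < x (N - r) + n - y N
      omega
    · show y (N - N) - y N < x (N - N) + n - y N
      rw [Nat.sub_self]
      omega
    · show x (N - 0) + n - y N < n
      rw [Nat.sub_zero]
      omega
    · intro i hi1 hi2
      have hi2' : i ≤ y (N - N) - y N := hi2
      rw [Nat.sub_self] at hi2'
      rw [hcl i (by omega), mod_rot (j := i + y N) (by omega) (Or.inl rfl)]
      exact hlad.cy _ (by omega) (by omega)
    · intro i hi1 hi2
      have hi1' : x (N - N) + n - y N ≤ i := hi1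
      have hi2' : i ≤ x (N - 0) + n - y N := hi2
      rw [Nat.sub_self] at hi1'
      rw [Nat.sub_zero] at hi2'
      rw [hcl i (by omega), mod_rot (j := i + y N - n) (by omega) (by right; omega)]
      exact hlad.cx _ (by omega) (by omega)
    · show 8 * (y (N - N) - y N - (y (N - 0) - y N)) ≤ n
      rw [Nat.sub_self, Nat.sub_zero]
      omega
    · show 8 * (x (N - 0) + n - y N - (x (N - N) + n - y N)) ≤ n
      rw [Nat.sub_self, Nat.sub_zero]
      omega
    · intro r hr
      obtain ⟨k1, k2, k3⟩ := hlad.K (N - r) (by omega)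
      have e1 := xm 0 (N - r) (by omega) (by omega)
      have e2 := ym (N - r) N (by omega) le_rfl
      have e3 := xm (N - r) N (by omega) le_rfl
      have e4 := ym 0 (N - r) (by omega) (by omega)
      exact ⟨comp_rot himg k1, at_rot (by omega) (by left; omega) k3,
        at_rot (by omega) (by right; omega) k2⟩
    · show (y (N - p) - y N < l1' ∧ l1' ≤ y (N - N) - y N) ∨
        (x (N - N) + n - y N ≤ l1' ∧ l1' < x (N - p) + n - y N)
      rw [Nat.sub_self]
      omega
    · show (y (N - p) - y N < l2' ∧ l2' ≤ y (N - N) - y N) ∨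
        (x (N - N) + n - y N ≤ l2' ∧ l2' < x (N - p) + n - y N)
      rw [Nat.sub_self]
      omega
    · omega
    · show x (N - 0) + n - y N < w1 + n - y N
      rw [Nat.sub_zero]
      omega
    · omega
    · omega
    · intro i hi1 hi2
      rw [hch i (by omega), mod_rot (j := i + y N - n) (by omega) (by right; omega)]
      exact hini.fr _ (by omega) (by omega)
    · omega
    · exact at_rot (j := l1) (by omega) (by omega) hini.a1
    · exact at_rot (j := l2) (by omega) (by omega) hini.a2
    · exact at_rot (by omega) (by right; omega) hini.at1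
    · exact at_rot (by omega) (by right; omega) hini.at2
  · -- zone above the ladder
    refine h2 V X n c τ σ N x y K s p l1 l2 w1 w2 L1 L2 hset hlad hp (by omega)
      ⟨?_, ?_, hll, hz, hww, hwn, hini.fr, hsw, hini.ne, hini.C1, hini.C2, hini.a1, hini.a2,
        hini.at1, hini.at2⟩ (by omega)
    · unfold Bey
      omega
    · unfold Bey
      omega

end Pool.Agent.W764.CH
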